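import Pool.Agent.W426.LE.SG

set_option autoImplicit false

/-! LE-GR: from the criterion to simple graphs. -/

namespace Pool.Agent.W15.LEGR

open Finset Pool.Agent.W426.LE
open scoped Classical

theorem card_two {V E D : Type} [Fintype V] [Fintype E] [Fintype D]
    (inc : V → D → E) (G : SimpleGraph V) (ψ : E ≃ G.edgeSet)
    (h1 : ∀ v i, v ∈ (ψ (inc v i) : Sym2 V))
    (h2 : ∀ v e, v ∈ (ψ e : Sym2 V) → ∃ i, inc v i = e)
    (h3 : ∀ v, Function.Injective (inc v)) (e : E) :
    Fintype.card {q : V × D // inc q.1 q.2 = e} = 2 := by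
  obtain ⟨a, b, hse, hab⟩ : ∃ a b, (ψ e : Sym2 V) = s(a, b) ∧ a ≠ b := by
    have hs := (ψ e).2
    revert hs
    generalize ((ψ e : G.edgeSet) : Sym2 V) = s
    induction s using Sym2.ind with
    | _ a b =>
      intro hs
      have h' : G.Adj a b := hs
      exact ⟨a, b, rfl, h'.ne⟩
  have hmem : ∀ v, v ∈ (ψ e : Sym2 V) ↔ v = a ∨ v = b := by
    intro v
    rw [hse]
    exact Sym2.mem_iff
  obtain ⟨ia, hia⟩ := h2 a e ((hmem a).2 (Or.inl rfl))
  obtain ⟨ib, hib⟩ := h2 b e ((hmem b).2 (Or.inr rfl))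
  rw [Fintype.card_subtype]
  have : (univ.filter fun q : V × D => inc q.1 q.2 = e) = {(a, ia), (b, ib)} := by
    ext ⟨v, i⟩
    simp only [mem_filter, mem_univ, true_and, mem_insert, mem_singleton, Prod.mk.injEq]
    constructor
    · intro h
      have hv := (hmem v).1 (h ▸ h1 v i)
      rcases hv with rfl | rfl
      · exact Or.inl ⟨rfl, h3 v (h.trans hia.symm)⟩
      · exact Or.inr ⟨rfl, h3 v (h.trans hib.symm)⟩
    · rintro (⟨rfl, rfl⟩ | ⟨rfl, rfl⟩)
      · exact hia
      · exact hib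
  rw [this]
  exact card_pair fun h => hab (Prod.mk.inj h).1

theorem main (h : S_CRIT) : S_GR := by
  intro V E D C _ _ _ _ _ ρ inc G ψ h1 h2 h3 hN k
  constructor
  · rintro ⟨col⟩ L hL
    -- k is at least card D
    obtain ⟨v⟩ := ‹Nonempty V›
    have hk : Fintype.card D ≤ k := by
      have hinj : Function.Injective (fun i : D => col (ψ (inc v i))) := by
        intro i j hij
        by_contra hne
        have hadj : G.lineGraph.Adj (ψ (inc v i)) (ψ (inc v j)) := by
          rw [SimpleGraph.lineGraph_adj_iff_exists]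
          exact ⟨fun he => hne (h3 v (ψ.injective he)), v, h1 v i, h1 v j⟩
        exact col.valid hadj hij
      simpa using Fintype.card_le_of_injective _ hinj
    obtain ⟨f, hf1, hf2⟩ := h V E D C ρ inc (card_two inc G ψ h1 h2 h3) hN (fun e => L (ψ e))
      (fun e => hk.trans (hL _))
    refine ⟨fun e => f (ψ.symm e), fun e => by simpa using hf1 (ψ.symm e), ?_⟩
    intro e e' hadj
    rw [SimpleGraph.lineGraph_adj_iff_exists] at hadj
    obtain ⟨hne, v, hv, hv'⟩ := hadj
    obtain ⟨i, hi⟩ := h2 v (ψ.symm e) (by simpa using hv)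
    obtain ⟨j, hj⟩ := h2 v (ψ.symm e') (by simpa using hv')
    intro hfe
    simp only [← hi, ← hj] at hfe
    have hij := hf2 v hfe
    subst hij
    exact hne (ψ.symm.injective (hi.symm.trans hj))
  · intro hL
    obtain ⟨f, hf1, hf2⟩ := hL (fun _ => range k) (fun e => by simp)
    exact ⟨SimpleGraph.Coloring.mk (fun e => (⟨f e, by simpa using hf1 e⟩ : Fin k))
      (fun {e e'} hadj he => hf2 e e' hadj (congrArg Fin.val he))⟩

end Pool.Agent.W15.LEGR
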